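import Mathlib
import Pool.Agent.Q118.HL.Avg

/-! Abstract systems of good families: from large good subfamilies of all families to good subfamilies which carry the
same proportion of every weight. -/

set_option autoImplicit false

namespace Pool.Agent.Q118.HW

open Finset Filter
open Pool.Agent.Q118.HL (Carries)

/-- a notion of good finite families of elements of `α`, depending on a constant and a scale -/
structure GSys (α : Type) where
  /-- the elements which are allowed at the scale `x` -/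
  B : ℕ → α → Prop
  /-- the family `u t`, `t ∈ S`, is good with the constant `C` at the scale `x` -/
  G : ℕ → ℕ → (V : Type) → Finset V → (V → α) → Prop
  ne : ∀ᶠ x : ℕ in atTop, ∃ a, B x a
  mono : ∀ᶠ x : ℕ in atTop, ∀ (C C' : ℕ) (V : Type) (S : Finset V) (u : V → α), C ≤ C' → G C x V S u → G C' x V S u
  pull : ∀ (C x : ℕ) (V V' : Type) (S : Finset V) (S' : Finset V') (u : V → α) (u' : V' → α) (π : V → V'),
    (∀ v ∈ S, π v ∈ S') → (∀ v ∈ S, u v = u' (π v)) → Set.InjOn π S → G C x V' S' u' → G C x V S u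

variable {α : Type}

theorem GSys.sub (Γ : GSys α) {C x : ℕ} {V : Type} {S S' : Finset V} {u : V → α} (h : S' ⊆ S)
    (hS : Γ.G C x V S u) : Γ.G C x V S' u :=
  Γ.pull C x V V S' S u u id (fun v hv => h hv) (fun _ _ => rfl) (fun _ _ _ _ h => h) hS

/-- every family contains a good one with the proportion `1 / κ` of its members -/
def GSys.Star (Γ : GSys α) (κ : ℝ) : Prop := ∀ T : ℕ, 1 ≤ T → ∃ C : ℕ, ∀ᶠ x : ℕ in atTop, ∀ u : Fin T → α,
  (∀ i, Γ.B x (u i)) → ∃ S : Finset (Fin T), (T : ℝ) ≤ κ * S.card ∧ Γ.G C x (Fin T) S u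

theorem carriesX (Γ : GSys α) {κ : ℝ} (hκ : 0 < κ) (H : Γ.Star κ) (V : Type) [Fintype V] [DecidableEq V] :
    ∃ C : ℕ, ∀ᶠ x : ℕ in atTop, ∀ u : V → α, (∀ t, Γ.B x (u t)) → Carries (1 / κ) (fun S => Γ.G C x V S u) := by
  classical
  choose! Cf hCf using H
  let Fail : Finset (Finset V) → Prop := fun P => ∃ k : V → ℕ, 1 ≤ ∑ t, k t ∧ ∀ S ∈ P, κ * ∑ t ∈ S, (k t : ℝ) < ∑ t, (k t : ℝ)
  have hch : ∀ P : Finset (Finset V), ∃ k : V → ℕ, Fail P → 1 ≤ ∑ t, k t ∧ ∀ S ∈ P, κ * ∑ t ∈ S, (k t : ℝ) < ∑ t, (k t : ℝ) := by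
    intro P
    by_cases h : Fail P
    · obtain ⟨k, hk⟩ := h
      exact ⟨k, fun _ => hk⟩
    · exact ⟨fun _ => 0, fun h' => absurd h' h⟩
  choose kf hkf using hch
  set C := Cf 1 + ∑ P : Finset (Finset V), Cf (∑ t, kf P t) with hC
  have hCP : ∀ P : Finset (Finset V), Cf (∑ t, kf P t) ≤ C := by
    intro P
    have := single_le_sum (f := fun P : Finset (Finset V) => Cf (∑ t, kf P t)) (fun _ _ => Nat.zero_le _) (mem_univ P)
    exact this.trans (Nat.le_add_left _ _)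
  refine ⟨C, ?_⟩
  have hall : ∀ᶠ x : ℕ in atTop, ∀ P ∈ (univ : Finset (Finset (Finset V))).filter (fun P => 1 ≤ ∑ t, kf P t),
      ∀ u : Fin (∑ t, kf P t) → α, (∀ i, Γ.B x (u i)) →
        ∃ S : Finset (Fin (∑ t, kf P t)), ((∑ t, kf P t : ℕ) : ℝ) ≤ κ * S.card ∧
          Γ.G (Cf (∑ t, kf P t)) x (Fin (∑ t, kf P t)) S u := by
    rw [eventually_all_finset]
    intro P hP
    exact hCf _ (mem_filter.1 hP).2
  filter_upwards [hall, hCf 1 le_rfl, Γ.ne, Γ.mono] with x hx hx1 hne hmono u hu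
  -- the empty family
  have h0 : Γ.G C x V ∅ u := by
    obtain ⟨a, ha⟩ := hne
    obtain ⟨S, hS1, hS2⟩ := hx1 (fun _ => a) (fun _ => ha)
    exact Γ.pull C x V (Fin 1) ∅ S u (fun _ => a) (fun _ => 0) (by simp) (by simp) (by simp)
      (hmono _ _ _ _ _ (Nat.le_add_right _ _) hS2)
  refine ⟨fun S S' h hS => Γ.sub h hS, ?_⟩
  by_contra hcon
  push Not at hcon
  obtain ⟨w, hw0, hw⟩ := hcon
  set P : Finset (Finset V) := univ.filter (fun S => Γ.G C x V S u) with hP
  have hwP : ∀ S ∈ P, κ * ∑ t ∈ S, w t < ∑ t, w t := by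
    intro S hS
    have := hw S (mem_filter.1 hS).2
    rw [one_div_mul_eq_div, lt_div_iff₀ hκ] at this
    linarith
  -- integral weights
  have hev : ∀ᶠ N : ℕ in atTop, ∀ S ∈ P, κ * ∑ t ∈ S, ((⌊(N : ℝ) * w t⌋₊ : ℕ) : ℝ) < ∑ t, ((⌊(N : ℝ) * w t⌋₊ : ℕ) : ℝ) := by
    rw [eventually_all_finset]
    intro S hS
    have hg : 0 < ∑ t, w t - κ * ∑ t ∈ S, w t := by linarith [hwP S hS]
    filter_upwards [tendsto_natCast_atTop_atTop.eventually_gt_atTop ((Fintype.card V : ℝ) / (∑ t, w t - κ * ∑ t ∈ S, w t))]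
      with N hN
    rw [div_lt_iff₀ hg] at hN
    have h1 : ∑ t ∈ S, ((⌊(N : ℝ) * w t⌋₊ : ℕ) : ℝ) ≤ N * ∑ t ∈ S, w t := by
      rw [mul_sum]
      exact sum_le_sum fun t _ => Nat.floor_le (mul_nonneg (Nat.cast_nonneg _) (hw0 t))
    have h2 : N * ∑ t, w t - Fintype.card V ≤ ∑ t, ((⌊(N : ℝ) * w t⌋₊ : ℕ) : ℝ) := by
      have h3 : ∑ t, ((N : ℝ) * w t - 1) ≤ ∑ t, ((⌊(N : ℝ) * w t⌋₊ : ℕ) : ℝ) :=
        sum_le_sum fun t _ => by linarith [Nat.lt_floor_add_one ((N : ℝ) * w t)]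
      rw [sum_sub_distrib, ← mul_sum] at h3
      simpa using h3
    have h3 := mul_le_mul_of_nonneg_left h1 hκ.le
    nlinarith
  obtain ⟨N, hN⟩ := hev.exists
  have hF : Fail P := by
    refine ⟨fun t => ⌊(N : ℝ) * w t⌋₊, ?_, hN⟩
    have h1 := hN ∅ (mem_filter.2 ⟨mem_univ _, h0⟩)
    rw [sum_empty, mul_zero] at h1
    have h2 : 0 < ∑ t, ⌊(N : ℝ) * w t⌋₊ := by exact_mod_cast h1
    exact h2
  obtain ⟨hk1, hk2⟩ := hkf P hF
  set k := kf P with hk
  set T := ∑ t, k t with hT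
  let e : ((t : V) × Fin (k t)) ≃ Fin T := Fintype.equivFinOfCardEq (by simp [hT])
  set pos : Fin T → V := fun j => (e.symm j).1 with hpos
  obtain ⟨S', hS'1, hS'2⟩ := hx P (mem_filter.2 ⟨mem_univ _, hk1⟩) (fun j => u (pos j)) (fun j => hu _)
  have hfib : ∀ t : V, (S'.filter (fun j => pos j = t)).card ≤ k t := by
    intro t
    have h1 : (S'.filter (fun j => pos j = t)).card ≤ (range (k t)).card := by
      apply card_le_card_of_injOn (fun j => ((e.symm j).2 : ℕ))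
      · intro j hj
        have h2 := (mem_filter.1 (mem_coe.1 hj)).2
        rw [mem_coe, mem_range, ← h2]
        exact (e.symm j).2.2
      · intro j hj j' hj' h
        have h2 := (mem_filter.1 (mem_coe.1 hj)).2
        have h3 := (mem_filter.1 (mem_coe.1 hj')).2
        apply e.symm.injective
        apply Sigma.ext (h2.trans h3.symm)
        simp only at h
        rw [hpos] at h2 h3
        simp only at h2 h3
        generalize e.symm j = y at *
        generalize e.symm j' = y' at *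
        obtain ⟨y1, y2⟩ := y
        obtain ⟨z1, z2⟩ := y'
        simp only at h2 h3 h
        subst h2
        subst h3
        exact heq_of_eq (Fin.ext h)
    rwa [card_range] at h1
  set S := S'.image pos with hS
  have hsec : ∀ t : V, ∃ j : Fin T, t ∈ S → j ∈ S' ∧ pos j = t := by
    intro t
    by_cases ht : t ∈ S
    · obtain ⟨j, hj, hjt⟩ := mem_image.1 ht
      exact ⟨j, fun _ => ⟨hj, hjt⟩⟩
    · exact ⟨⟨0, hk1⟩, fun h => absurd h ht⟩
  choose π hπ using hsec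
  have hGS : Γ.G C x V S u := by
    apply hmono _ _ _ _ _ (hCP P)
    refine Γ.pull _ x V (Fin T) S S' u (fun j => u (pos j)) π (fun t ht => (hπ t ht).1)
      (fun t ht => by rw [(hπ t ht).2]) ?_ hS'2
    intro t ht t' ht' h
    rw [← (hπ t (mem_coe.1 ht)).2, ← (hπ t' (mem_coe.1 ht')).2, h]
  have h1 := hk2 S (mem_filter.2 ⟨mem_univ _, hGS⟩)
  have h2 : (S'.card : ℝ) ≤ ∑ t ∈ S, (k t : ℝ) := by
    have : S'.card ≤ ∑ t ∈ S, k t := by
      rw [card_eq_sum_card_image pos S', ← hS]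
      exact sum_le_sum fun t _ => hfib t
    exact_mod_cast this
  have h3 := mul_le_mul_of_nonneg_left h2 hκ.le
  have h4 : ((T : ℕ) : ℝ) = ∑ t, (k t : ℝ) := by
    rw [hT, Nat.cast_sum]
  linarith

end Pool.Agent.Q118.HW
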