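import Mathlib
import Pool.Agent.Y827.RO.LamR
import Pool.Agent.Q118.HW.Sys

/-! The system of the families of linear forms which are simultaneously prime, up to a bounded perturbation of the constant
terms, with clusters of `m` primes and up to a power of the logarithm. -/

set_option autoImplicit false

namespace Pool.Agent.Q118.HW

open Finset Filter
open Pool.Agent.TH899.UG.Uni (cl sx ix cl_ix ix_cl card_cl greedy)
open Pool.Agent.Y827.RO (lamR0 Rs)
open Pool.Agent.Y827.GS (Adf)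

/-- the forms `u t`, `t ∈ S`: there are sets `E t` of `m` integers, within `C` of the constant term of `u t`, pairwise not
proportional, such that for at least `x / (log x) ^ C` integers `0 ≤ n ≤ C x` all `a n + e`, `e ∈ E t`, are primes -/
def GF (m : ℕ) (C x : ℕ) (V : Type) (S : Finset V) (u : V → ℤ × ℤ) : Prop :=
  ∃ E : V → Finset ℤ, (∀ t ∈ S, (E t).card = m ∧ ∀ e ∈ E t, |e - (u t).2| ≤ C) ∧
    (∀ t ∈ S, ∀ t' ∈ S, t ≠ t' → ∀ e ∈ E t, ∀ e' ∈ E t', (u t).1 * e' ≠ (u t').1 * e) ∧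
    (x : ℝ) / Real.log x ^ C ≤
      ({n : ℕ | n ≤ C * x ∧ ∀ t ∈ S, ∀ e ∈ E t, ((u t).1 * (n : ℤ) + e).toNat.Prime}.ncard : ℝ)

theorem finS (X : ℕ) (p : ℕ → Prop) : {n : ℕ | n ≤ X ∧ p n}.Finite :=
  (Set.finite_Iic X).subset fun _ h => h.1

theorem log1 {x : ℕ} (hx : 3 ≤ x) : 1 ≤ Real.log x := by
  rw [Real.le_log_iff_exp_le (by exact_mod_cast (by omega : 0 < x))]
  have h1 := Real.exp_one_lt_d9
  have h2 : (3 : ℝ) ≤ x := by exact_mod_cast hx
  linarith

theorem GF_mono {m C C' x : ℕ} (hx : 3 ≤ x) (V : Type) (S : Finset V) (u : V → ℤ × ℤ) (h : C ≤ C')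
    (hG : GF m C x V S u) : GF m C' x V S u := by
  obtain ⟨E, h1, h2, h3⟩ := hG
  refine ⟨E, fun t ht => ⟨(h1 t ht).1, fun e he => ((h1 t ht).2 e he).trans (by exact_mod_cast h)⟩, h2, ?_⟩
  have hx0 : (0 : ℝ) ≤ x := Nat.cast_nonneg _
  have hL := log1 hx
  refine le_trans (div_le_div_of_nonneg_left hx0 (by positivity) (pow_le_pow_right₀ hL h)) (h3.trans ?_)
  rw [Nat.cast_le]
  apply Set.ncard_le_ncard _ (finS _ _)
  intro n hn
  exact ⟨hn.1.trans (Nat.mul_le_mul_right _ h), hn.2⟩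

/-- the system of the forms with coefficients up to `A` -/
def ΓF (m A : ℕ) (hA : 1 ≤ A) : GSys (ℤ × ℤ) where
  B := fun x f => 1 ≤ f.1 ∧ f.1 ≤ A ∧ |f.2| ≤ x
  G := GF m
  ne := Eventually.of_forall fun x => ⟨(1, 0), le_rfl, by show (1 : ℤ) ≤ (A : ℤ); exact_mod_cast hA, by simp⟩
  mono := by
    filter_upwards [eventually_ge_atTop 3] with x hx C C' V S u h hG
    exact GF_mono hx V S u h hG
  pull := by
    rintro C x V V' S S' u u' π hπ hu hinj ⟨E, h1, h2, h3⟩
    refine ⟨fun t => E (π t), fun t ht => ?_, fun t ht t' ht' hne e he e' he' => ?_, h3.trans ?_⟩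
    · have := h1 _ (hπ t ht)
      rw [hu t ht]
      exact this
    · rw [hu t ht, hu t' ht']
      exact h2 _ (hπ t ht) _ (hπ t' ht') (fun h => hne (hinj ht ht' h)) e he e' he'
    · rw [Nat.cast_le]
      apply Set.ncard_le_ncard _ (finS _ _)
      intro n hn
      refine ⟨hn.1, fun t ht e he => ?_⟩
      rw [hu t ht]
      exact hn.2 _ (hπ t ht) e he

theorem ceil518 (T : ℕ) (hT : 1 ≤ T) : ∃ M : ℕ, (18 / 5 : ℝ) * M < T ∧ (T : ℝ) ≤ 18 / 5 * ((M + 1 : ℕ) : ℝ) := by
  have hlam : (0 : ℝ) < 18 / 5 := by norm_num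
  have hTr : (0 : ℝ) < T := by exact_mod_cast hT
  obtain ⟨M, hM⟩ : ∃ M : ℕ, M + 1 = ⌈(T : ℝ) / (18 / 5)⌉₊ := by
    have : 0 < ⌈(T : ℝ) / (18 / 5)⌉₊ := Nat.ceil_pos.2 (by positivity)
    exact ⟨⌈(T : ℝ) / (18 / 5)⌉₊ - 1, by omega⟩
  refine ⟨M, ?_, ?_⟩
  · have h1 : (M : ℝ) < (T : ℝ) / (18 / 5) := by
      rw [← Nat.lt_ceil]
      omega
    rw [lt_div_iff₀ hlam] at h1
    linarith
  · have h1 : (T : ℝ) / (18 / 5) ≤ ((M + 1 : ℕ) : ℝ) := by
      rw [hM]; exact Nat.le_ceil _
    rw [div_le_iff₀ hlam] at h1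
    linarith

open Classical in
theorem starF (m A : ℕ) (hA : 1 ≤ A) : (ΓF m A hA).Star (18 / 5) := by
  intro T hT
  obtain ⟨M, hM1, hM2⟩ := ceil518 T hT
  -- repetitions
  obtain ⟨R, hR⟩ : ∃ R : ℕ, (18 / 5 : ℝ) * (T * m) < R * (T - (18 / 5) * M) := by
    obtain ⟨R, hR⟩ := exists_nat_gt ((18 / 5 : ℝ) * (T * m) / (T - (18 / 5) * M))
    refine ⟨R, ?_⟩
    rw [div_lt_iff₀ (by linarith)] at hR
    exact hR
  have hR0 : 0 < R := by
    rcases Nat.eq_zero_or_pos R with h | h
    · rw [h, Nat.cast_zero, zero_mul] at hR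
      have : (0 : ℝ) ≤ (18 / 5 : ℝ) * (T * m) := by positivity
      linarith
    · exact h
  obtain ⟨K, hK, δ, hδ, H⟩ := lamR0 (T * R) (M * R + T * m) (Nat.mul_pos hT hR0) (by
    push_cast
    nlinarith)
  obtain ⟨s₀, c, hc, H⟩ := H A
  set k : ℕ := T * R * K with hk
  set W : ℕ := (k + 2 + A).factorial with hWd
  have hW0 : 0 < W := Nat.factorial_pos _
  have hWz : (0 : ℤ) < W := by exact_mod_cast hW0
  have hKpos : 0 < K := by omega
  have : NeZero K := ⟨by omega⟩
  set C : ℕ := W + W * k + (k + 2) + 128 with hC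
  refine ⟨C, ?_⟩
  have htend : Tendsto (fun x : ℕ => 128 * x) atTop atTop := tendsto_id.const_mul_atTop' (by norm_num)
  have hlog : ∀ᶠ x : ℕ in atTop, (2 : ℝ) ^ (k + 1) / (128 * c) ≤ Real.log x :=
    (Real.tendsto_log_atTop.comp tendsto_natCast_atTop_atTop).eventually_ge_atTop _
  filter_upwards [htend.eventually H, hlog, eventually_ge_atTop 128, eventually_ge_atTop (W + W * k)]
    with x hN hxl hx128 hxW u hu
  obtain ⟨t, ht1, ht2, ht3⟩ := greedy k W hWz (fun i => (u (cl (cl i))).1)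
    (fun i => (u (cl (cl i))).2 + (1 - (u (cl (cl i))).1 - (u (cl (cl i))).2) % (W : ℤ))
    (fun i => by have := (hu (cl (cl i))).1; omega) univ
  set h : Fin k → ℤ := fun i =>
    (u (cl (cl i))).2 + (1 - (u (cl (cl i))).1 - (u (cl (cl i))).2) % (W : ℤ) + W * t i with hh
  have hr0 : ∀ i : Fin k, 0 ≤ (1 - (u (cl (cl i))).1 - (u (cl (cl i))).2) % (W : ℤ) :=
    fun i => Int.emod_nonneg _ hWz.ne'
  have hr1 : ∀ i : Fin k, (1 - (u (cl (cl i))).1 - (u (cl (cl i))).2) % (W : ℤ) < W :=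
    fun i => Int.emod_lt_of_pos _ hWz
  have ht0 : ∀ i, (0 : ℤ) ≤ W * t i := fun i => by positivity
  have ht4 : ∀ i, (W : ℤ) * t i ≤ W * k := fun i => by
    have := ht1 i
    exact mul_le_mul_of_nonneg_left (by exact_mod_cast this) hWz.le
  -- the constant terms
  have hh1 : ∀ i, (u (cl (cl i))).2 ≤ h i := fun i => by
    have := hr0 i
    have := ht0 i
    rw [hh]
    linarith
  have hh2 : ∀ i, h i ≤ (u (cl (cl i))).2 + (W + W * k) := fun i => by
    have := hr1 i
    have := ht4 i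
    rw [hh]
    linarith
  have hcong : ∀ i, (W : ℤ) ∣ (u (cl (cl i))).1 + h i - 1 := fun i => by
    have h1 := Int.emod_add_mul_ediv (1 - (u (cl (cl i))).1 - (u (cl (cl i))).2) (W : ℤ)
    refine ⟨t i - (1 - (u (cl (cl i))).1 - (u (cl (cl i))).2) / (W : ℤ), ?_⟩
    rw [hh]
    simp only
    linear_combination h1
  have hnp : ∀ i j, i ≠ j → (u (cl (cl i))).1 * h j ≠ (u (cl (cl j))).1 * h i := fun i j hij =>
    ht3 i (mem_univ _) j (mem_univ _) hij
  set H' : Fin (T * R) → Fin K → ℤ × ℤ := fun g s => ((u (cl g)).1, h (ix g s)) with hH'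
  have hxW' : ((W : ℤ) + W * k) ≤ x := by exact_mod_cast hxW
  have hAdf : ∀ g i, Adf A (128 * x) (H' g i) := by
    intro g i
    have e1 := (hu (cl g)).1
    have e2 := (hu (cl g)).2.1
    have e3 := (hu (cl g)).2.2
    have e4 := hh1 (ix g i)
    have e5 := hh2 (ix g i)
    rw [cl_ix] at e4 e5
    have e6 := abs_le.1 e3
    refine ⟨?_, ?_, ?_, ?_, ?_⟩
    · show (u (cl g)).1 ≠ 0
      omega
    · show |(u (cl g)).1| ≤ A
      rw [abs_le]
      constructor <;> linarith
    · show |h (ix g i)| ≤ ((128 * x : ℕ) : ℤ)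
      rw [abs_le]
      push_cast
      constructor <;> linarith
    · show IsCoprime (u (cl g)).1 (h (ix g i))
      have e7 : (u (cl g)).1 ∣ (W : ℤ) := by
        have e8 : (u (cl g)).1.toNat ∣ W := by
          apply Nat.dvd_factorial
          · omega
          · omega
        have e9 : (((u (cl g)).1.toNat : ℕ) : ℤ) = (u (cl g)).1 := Int.toNat_of_nonneg (by omega)
        rw [← e9]
        exact_mod_cast e8
      have e8 := hcong (ix g i)
      rw [cl_ix] at e8
      obtain ⟨q, hq⟩ := e7.trans e8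
      refine ⟨1 - q, 1, ?_⟩
      linear_combination hq
    · intro y hy1 hy2
      show ((128 * x : ℕ) : ℝ) / 24 ≤ ((u (cl g)).1 : ℝ) * y + ((h (ix g i) : ℤ) : ℝ)
      have e7 : (-(x : ℝ)) ≤ ((h (ix g i) : ℤ) : ℝ) := by
        have : -(x : ℤ) ≤ h (ix g i) := by linarith [e6.1]
        exact_mod_cast this
      have e8 : (1 : ℝ) ≤ ((u (cl g)).1 : ℝ) := by exact_mod_cast e1
      push_cast at hy1 ⊢
      have hx0 : (0 : ℝ) ≤ x := Nat.cast_nonneg _
      have e9 : y ≤ ((u (cl g)).1 : ℝ) * y := le_mul_of_one_le_left (by linarith) e8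
      linarith
  have hinj : Function.Injective (fun y : Fin (T * R) × Fin K => H' y.1 y.2) := by
    intro y y' hyy
    by_contra hne
    have h1 : ix y.1 y.2 ≠ ix y'.1 y'.2 := by
      intro h2
      apply hne
      exact finProdFinEquiv.injective h2
    have h2 := hnp _ _ h1
    rw [cl_ix, cl_ix] at h2
    have hyy' : H' y.1 y.2 = H' y'.1 y'.2 := hyy
    have h3' : (H' y.1 y.2).1 = (H' y'.1 y'.2).1 := by rw [hyy']
    have h4' : (H' y.1 y.2).2 = (H' y'.1 y'.2).2 := by rw [hyy']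
    have h3 : (u (cl y.1)).1 = (u (cl y'.1)).1 := h3'
    have h4 : h (ix y.1 y.2) = h (ix y'.1 y'.2) := h4'
    apply h2
    rw [h3, h4]
  obtain ⟨s, S', σ, -, -, -, hS', hcnt⟩ := hN H' hinj hAdf (fun p hp hpk => ⟨1, fun g i hd => by
    have h1 : (p : ℤ) ∣ (W : ℤ) := by
      have : p ∣ W := Nat.dvd_factorial hp.pos (by omega)
      exact_mod_cast this
    have h2 := h1.trans (hcong (ix g i))
    rw [cl_ix] at h2
    have h3 : (p : ℤ) ∣ 1 := by
      have h4 : (H' g i).1 * 1 + (H' g i).2 = (u (cl g)).1 + h (ix g i) := by rw [hH', mul_one]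
      rw [h4] at hd
      have := dvd_sub hd h2
      rwa [sub_sub_cancel] at this
    have h4 : p ∣ 1 := by exact_mod_cast h3
    exact hp.one_lt.ne' (Nat.dvd_one.1 h4)⟩)
  -- the clusters
  set F : Fin T → Finset (Fin (T * R)) := fun g => S'.filter (fun i => cl i = g) with hF
  set e : Fin (T * R) → ℤ := fun i => h (ix i (σ i)) with he
  have hne' : ∀ i j, i ≠ j → (u (cl i)).1 * e j ≠ (u (cl j)).1 * e i := by
    intro i j hij
    have h1 : ix i (σ i) ≠ ix j (σ j) := fun h2 => hij (by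
      have := congrArg cl h2
      rwa [cl_ix, cl_ix] at this)
    have h2 := hnp _ _ h1
    rwa [cl_ix, cl_ix] at h2
  have hinjF : ∀ g, Set.InjOn e (F g : Set (Fin (T * R))) := by
    intro g i hi j hj hij
    by_contra hne2
    have h1 := (mem_filter.1 (mem_coe.1 hi)).2
    have h2 := (mem_filter.1 (mem_coe.1 hj)).2
    have h3 := hne' i j hne2
    rw [h1, h2, hij] at h3
    exact h3 rfl
  set S : Finset (Fin T) := univ.filter (fun g => m ≤ (F g).card) with hS
  have hex : ∀ g : Fin T, ∃ E : Finset ℤ, E ⊆ (F g).image e ∧ (g ∈ S → E.card = m) := by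
    intro g
    by_cases hg : g ∈ S
    · have h1 : m ≤ ((F g).image e).card := by
        rw [card_image_of_injOn (hinjF g)]
        exact (mem_filter.1 hg).2
      obtain ⟨E, hE1, hE2⟩ := exists_subset_card_eq h1
      exact ⟨E, hE1, fun _ => hE2⟩
    · exact ⟨∅, empty_subset _, fun h => absurd h hg⟩
  choose E hE1 hE2 using hex
  refine ⟨S, ?_, E, fun g hg => ⟨hE2 g hg, fun a ha => ?_⟩, fun i hi j hj hij a ha b hb => ?_, ?_⟩
  · have h0 : M + 1 ≤ S.card := by
      by_contra hcon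
      have h1 : S.card ≤ M := by omega
      have h2 : S'.card = ∑ g : Fin T, (F g).card := by
        rw [hF]
        exact card_eq_sum_card_fiberwise (fun i _ => mem_univ (cl i))
      have h3 : ∀ g : Fin T, (F g).card ≤ m + if g ∈ S then R else 0 := by
        intro g
        by_cases hg : g ∈ S
        · rw [if_pos hg]
          have h4 : (F g).card ≤ R := by
            have h5 : F g ⊆ univ.filter (fun i : Fin (T * R) => cl i = g) :=
              filter_subset_filter _ (subset_univ _)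
            have h6 := card_le_card h5
            rwa [card_cl] at h6
          omega
        · rw [if_neg hg]
          have h4 : ¬ m ≤ (F g).card := fun h => hg (mem_filter.2 ⟨mem_univ _, h⟩)
          omega
      have h4 : ∑ g : Fin T, (F g).card ≤ ∑ g : Fin T, (m + if g ∈ S then R else 0) :=
        sum_le_sum fun g _ => h3 g
      rw [sum_add_distrib, sum_const, card_univ, Fintype.card_fin, smul_eq_mul, sum_ite_mem,
        univ_inter, sum_const, smul_eq_mul] at h4
      have h5 : S.card * R ≤ M * R := Nat.mul_le_mul_right _ h1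
      omega
    exact hM2.trans (mul_le_mul_of_nonneg_left (by exact_mod_cast h0) (by norm_num))
  · obtain ⟨j, hj, rfl⟩ := mem_image.1 (hE1 g ha)
    have h1 := (mem_filter.1 hj).2
    have e4 := hh1 (ix j (σ j))
    have e5 := hh2 (ix j (σ j))
    rw [cl_ix, h1] at e4 e5
    have e6 : (C : ℤ) = W + W * k + (k + 2) + 128 := by rw [hC]; push_cast; ring
    rw [abs_le]
    have e7 : (0 : ℤ) ≤ k := Nat.cast_nonneg _
    have e8 : (0 : ℤ) ≤ (W : ℤ) * k := by positivity
    rw [he]
    simp only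
    constructor <;> linarith
  · obtain ⟨i', hi', rfl⟩ := mem_image.1 (hE1 i ha)
    obtain ⟨j', hj', rfl⟩ := mem_image.1 (hE1 j hb)
    have h1 := (mem_filter.1 hi').2
    have h2 := (mem_filter.1 hj').2
    have hne2 : i' ≠ j' := by
      rintro rfl
      exact hij (h1.symm.trans h2)
    have h3 := hne' i' j' hne2
    rwa [h1, h2] at h3
  · -- the number
    have hx0 : (0 : ℝ) < x := by exact_mod_cast (by omega : 0 < x)
    have hL1 : 1 ≤ Real.log x := log1 (by omega)
    have hL0 : 0 < Real.log x := by linarith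
    have hL2 : Real.log ((128 * x : ℕ) : ℝ) ≤ 2 * Real.log x := by
      rw [← Real.log_rpow hx0]
      apply Real.log_le_log
      · push_cast
        positivity
      · have : (128 : ℝ) ≤ x := by exact_mod_cast hx128
        push_cast
        rw [Real.rpow_two, pow_two]
        exact mul_le_mul_of_nonneg_right this hx0.le
    have hL3 : 0 < Real.log ((128 * x : ℕ) : ℝ) := by
      apply Real.log_pos
      have h128 : (128 : ℝ) ≤ x := by exact_mod_cast hx128
      push_cast
      linarith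
    have h1 : (x : ℝ) / Real.log x ^ C ≤ c * (((128 * x : ℕ) : ℝ) / Real.log ((128 * x : ℕ) : ℝ) ^ (k + 1)) := by
      have e1 : (x : ℝ) / Real.log x ^ C ≤ x / Real.log x ^ (k + 2) :=
        div_le_div_of_nonneg_left hx0.le (by positivity) (pow_le_pow_right₀ hL1 (by omega))
      refine e1.trans ?_
      have e2 : ((128 * x : ℕ) : ℝ) / (2 * Real.log x) ^ (k + 1) ≤
          ((128 * x : ℕ) : ℝ) / Real.log ((128 * x : ℕ) : ℝ) ^ (k + 1) :=
        div_le_div_of_nonneg_left (Nat.cast_nonneg _) (by positivity) (pow_le_pow_left₀ hL3.le hL2 _)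
      refine le_trans ?_ (mul_le_mul_of_nonneg_left e2 hc.le)
      rw [mul_pow]
      push_cast
      rw [div_le_iff₀ (by positivity)] at hxl
      rw [pow_succ (Real.log (x : ℝ)) (k + 1), div_le_iff₀ (by positivity)]
      have e3 : c * (128 * (x : ℝ) / (2 ^ (k + 1) * Real.log x ^ (k + 1))) * (Real.log x ^ (k + 1) * Real.log x) =
          x * ((Real.log x * (128 * c)) / 2 ^ (k + 1)) := by
        field_simp
      rw [e3]
      apply le_mul_of_one_le_right hx0.le
      rw [one_le_div (by positivity)]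
      exact hxl
    refine h1.trans (hcnt.trans ?_)
    rw [Nat.cast_le, ← Set.ncard_coe_finset]
    apply Set.ncard_le_ncard _ (finS _ _)
    intro n hn
    rw [mem_coe] at hn
    unfold Rs at hn
    obtain ⟨h2, h3⟩ := mem_filter.1 hn
    refine ⟨?_, fun g hg a ha => ?_⟩
    · have h4 := (mem_Icc.1 h2).2
      have h5 : 128 * x ≤ C * x := Nat.mul_le_mul_right _ (by omega)
      omega
    · obtain ⟨j, hj, rfl⟩ := mem_image.1 (hE1 g ha)
      have h4 := mem_filter.1 hj
      have h5 := h3.2.2.2 j h4.1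
      have h6 : (H' j (σ j)).1 = (u g).1 := by
        show (u (cl j)).1 = (u g).1
        rw [h4.2]
      rw [h6] at h5
      exact h5

/-- good families of linear forms carry five eighteenths of every weight -/
theorem carriesF (m A : ℕ) (hA : 1 ≤ A) (V : Type) [Fintype V] [DecidableEq V] :
    ∃ C : ℕ, ∀ᶠ x : ℕ in atTop, ∀ u : V → ℤ × ℤ, (∀ t, (ΓF m A hA).B x (u t)) →
      Pool.Agent.Q118.HL.Carries (5 / 18) (fun S => (ΓF m A hA).G C x V S u) := by
  have h := carriesX (ΓF m A hA) (by norm_num : (0 : ℝ) < 18 / 5) (starF m A hA) V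
  have e : (1 : ℝ) / (18 / 5) = 5 / 18 := by norm_num
  rwa [e] at h

end Pool.Agent.Q118.HW
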