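import Mathlib
import Pool.Agent.Q118.HL.Func
import Pool.Agent.Q118.HW.Sys

/-! Arbitrary functions on words and on grids. -/

set_option autoImplicit false

namespace Pool.Agent.Q118.HW

open Finset Filter
open Pool.Agent.Q118.HL (Carries line_inj)

variable {β : Type}

/-- the density Hales-Jewett theorem with cardinalities -/
theorem dhjδ (δ : ℝ) (hδ : 0 < δ) (α : Type) [Fintype α] [Nonempty α] [DecidableEq α] : ∃ n : ℕ, ∀ A : Finset (Fin n → α),
    δ * (Fintype.card α : ℝ) ^ n ≤ A.card → ∃ L : Combinatorics.Line α (Fin n), ∀ i, L i ∈ A := by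
  classical
  obtain ⟨n, hn⟩ := Pool.Agent.Helper903.DHJ.ldhj α δ hδ
  refine ⟨n, fun A hA => ?_⟩
  have hc : (0 : ℝ) < Fintype.card α := by exact_mod_cast Fintype.card_pos
  obtain ⟨L, hL⟩ := hn (A : Set (Fin n → α)) (by
    have h1 : Pool.Agent.Helper903.DHJ.dens (A : Set (Fin n → α)) =
        (A.card : ℝ) / (Fintype.card α : ℝ) ^ n := by
      unfold Pool.Agent.Helper903.DHJ.dens Pool.Agent.Helper903.DHJ.avg
      congr 1
      · unfold Pool.Agent.Helper903.DHJ.ind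
        simp [Set.indicator_apply, Finset.sum_ite_mem]
      · simp
    rw [h1, le_div_iff₀ (by positivity)]
    exact hA)
  exact ⟨L, fun i => by exact_mod_cast hL i⟩

/-- good lines -/
theorem linesX (Γ : GSys β) {p : ℝ} (hp0 : 0 < p) (H : ∀ (V : Type) [Fintype V] [DecidableEq V], ∃ C : ℕ,
    ∀ᶠ x : ℕ in atTop, ∀ u : V → β, (∀ t, Γ.B x (u t)) → Carries p (fun S => Γ.G C x V S u))
    (α : Type) [Fintype α] [Nonempty α] [DecidableEq α] :
    ∃ n C : ℕ, ∀ᶠ x : ℕ in atTop, ∀ v : (Fin n → α) → β, (∀ w, Γ.B x (v w)) →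
      ∃ L : Combinatorics.Line α (Fin n), Γ.G C x α univ (fun a => v (L a)) := by
  obtain ⟨n, hn⟩ := dhjδ p hp0 α
  obtain ⟨C, H⟩ := H (Fin n → α)
  refine ⟨n, C, ?_⟩
  filter_upwards [H] with x hx v hv
  obtain ⟨-, h2⟩ := hx v hv
  obtain ⟨S, hS, hpS⟩ := h2 (fun _ => 1) (fun _ => zero_le_one)
  have h3 : p * (Fintype.card α : ℝ) ^ n ≤ S.card := by
    have e1 : ∑ _t : Fin n → α, (1 : ℝ) = (Fintype.card α : ℝ) ^ n := by simp
    have e2 : ∑ _t ∈ S, (1 : ℝ) = S.card := by simp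
    rwa [e1, e2] at hpS
  obtain ⟨L, hL⟩ := hn S h3
  exact ⟨L, Γ.pull C x α (Fin n → α) univ S _ v (fun a => L a) (fun a _ => hL a) (fun _ _ => rfl)
    (line_inj L).injOn hS⟩

open Classical in
theorem funcX (Γ : GSys β) {p : ℝ} (hp0 : 0 < p) (H : ∀ (V : Type) [Fintype V] [DecidableEq V], ∃ C : ℕ,
    ∀ᶠ x : ℕ in atTop, ∀ u : V → β, (∀ t, Γ.B x (u t)) → Carries p (fun S => Γ.G C x V S u)) (D k : ℕ) :
    ∃ (c : ℝ) (C : ℕ), 0 < c ∧ ∀ᶠ x : ℕ in atTop, ∀ N : ℕ, C ≤ N →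
      ∀ f : (Fin D → ℕ) → β, (∀ y, (∀ j, y j ≤ N) → Γ.B x (f y)) →
        c * (N : ℝ) ^ (D + 1) ≤ (((univ : Finset ((Fin D → Fin (N + 1)) × Fin (N + 1))).filter (fun q =>
          1 ≤ (q.2 : ℕ) ∧ (∀ j, (q.1 j : ℕ) + k * (q.2 : ℕ) ≤ N) ∧
          Γ.G C x (Fin D → Fin (k + 1)) univ (fun i => f (fun j => (q.1 j : ℕ) + (q.2 : ℕ) * (i j : ℕ))))).card : ℝ) := by
  obtain ⟨n, C0, H⟩ := linesX Γ hp0 H (Fin D → Fin (k + 1))
  set M := (k + 1) * n + 1 with hM
  have hM1 : 1 ≤ M := by omega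
  have hM0 : (0 : ℝ) < M := by exact_mod_cast hM1
  refine ⟨1 / ((2 * M) ^ (D + 1) * (M ^ D * (n + 1))), C0 + 2 * M, by positivity, ?_⟩
  filter_upwards [H, Γ.mono] with x hx hmono N hN f hf
  set N' := N / M with hN'
  have hMN : M * N' ≤ N := Nat.mul_div_le N M
  have hN'1 : N < M * (N' + 1) := Nat.lt_mul_div_succ N (by omega)
  set G := (univ : Finset ((Fin D → Fin (N + 1)) × Fin (N + 1))).filter (fun q =>
          1 ≤ (q.2 : ℕ) ∧ (∀ j, (q.1 j : ℕ) + k * (q.2 : ℕ) ≤ N) ∧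
          Γ.G (C0 + 2 * M) x (Fin D → Fin (k + 1)) univ (fun i => f (fun j => (q.1 j : ℕ) + (q.2 : ℕ) * (i j : ℕ)))) with hG
  have hkn : k * n ≤ (k + 1) * n := Nat.mul_le_mul_right _ (by omega)
  have hnn : n ≤ (k + 1) * n := Nat.le_mul_of_pos_left _ (by omega)
  -- the lines
  have hex : ∀ z : (Fin D → Fin (N' + 1)) × Fin N', ∃ y : (((Fin D → Fin (N + 1)) × Fin (N + 1)) ×
      ((Fin D → Fin M) × Fin (n + 1))), y.1 ∈ G ∧ (∀ j, (y.1.1 j : ℕ) = z.1 j + (z.2 + 1) * y.2.1 j) ∧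
        (y.1.2 : ℕ) = (z.2 + 1) * y.2.2 ∧ 1 ≤ (y.2.2 : ℕ) := by
    rintro ⟨a, b⟩
    have hb : (b : ℕ) + 1 ≤ N' := b.2
    have ha : ∀ j, (a j : ℕ) ≤ N' := fun j => by have := (a j).2; omega
    obtain ⟨L, hL⟩ := hx (fun w => f (fun j => (a j : ℕ) + (b + 1) * ∑ l, (w l j : ℕ))) (fun w => hf _ (fun j => by
      have h1 : ∑ l : Fin n, (w l j : ℕ) ≤ k * n := by
        refine (sum_le_card_nsmul univ _ k fun l _ => ?_).trans (by simp [mul_comm])
        have := (w l j).2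
        omega
      calc (a j : ℕ) + (b + 1) * ∑ l, (w l j : ℕ) ≤ N' + N' * (k * n) :=
            Nat.add_le_add (ha j) (Nat.mul_le_mul hb h1)
        _ = (k * n + 1) * N' := by ring
        _ ≤ M * N' := Nat.mul_le_mul_right _ (by omega)
        _ ≤ N := hMN))
    set J : Finset (Fin n) := univ.filter (fun l => L.idxFun l = none) with hJ
    have hJne : 1 ≤ J.card := by
      obtain ⟨l, hl⟩ := L.proper
      exact card_pos.2 ⟨l, by simp [hJ, hl]⟩
    have hJn : J.card ≤ n := (card_le_univ J).trans (by simp)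
    set s : Fin D → ℕ := fun j => ∑ l ∈ univ.filter (fun l => L.idxFun l ≠ none), (L 0 l j : ℕ) with hs
    have hsum : ∀ (i : Fin D → Fin (k + 1)) (j : Fin D), ∑ l, (L i l j : ℕ) = s j + J.card * (i j : ℕ) := by
      intro i j
      rw [← sum_filter_add_sum_filter_not univ (fun l => L.idxFun l ≠ none)]
      congr 1
      · rw [hs]
        refine sum_congr rfl fun l hl => ?_
        obtain ⟨y, hy⟩ := Option.ne_none_iff_exists'.1 (mem_filter.1 hl).2
        rw [Combinatorics.Line.apply_some hy, Combinatorics.Line.apply_some hy]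
      · have h1 : univ.filter (fun l => ¬ L.idxFun l ≠ none) = J := by
          rw [hJ]
          apply filter_congr
          intro l _
          simp
        rw [h1, card_eq_sum_ones, sum_mul]
        refine sum_congr rfl fun l hl => ?_
        rw [Combinatorics.Line.apply_none _ _ _ (mem_filter.1 hl).2, one_mul]
    have hsJ : ∀ j, s j + J.card * k ≤ k * n := by
      intro j
      have h1 := hsum (fun _ => Fin.last k) j
      rw [Fin.val_last] at h1
      rw [← h1]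
      refine (sum_le_card_nsmul univ _ k fun l _ => ?_).trans (by simp [mul_comm])
      have := (L (fun _ => Fin.last k) l j).2
      omega
    have hA : ∀ j, (a j : ℕ) + (b + 1) * s j + k * ((b + 1) * J.card) ≤ N := by
      intro j
      calc (a j : ℕ) + (b + 1) * s j + k * ((b + 1) * J.card) = a j + (b + 1) * (s j + J.card * k) := by ring
        _ ≤ N' + N' * (k * n) := Nat.add_le_add (ha j) (Nat.mul_le_mul hb (hsJ j))
        _ = (k * n + 1) * N' := by ring
        _ ≤ M * N' := Nat.mul_le_mul_right _ (by omega)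
        _ ≤ N := hMN
    have hB : ((b : ℕ) + 1) * J.card ≤ N := by
      calc ((b : ℕ) + 1) * J.card ≤ N' * n := Nat.mul_le_mul hb hJn
        _ ≤ N' * M := Nat.mul_le_mul_left _ (by omega)
        _ = M * N' := mul_comm _ _
        _ ≤ N := hMN
    refine ⟨((fun j => ⟨(a j : ℕ) + (b + 1) * s j, by have := hA j; omega⟩, ⟨(b + 1) * J.card, by omega⟩),
      (fun j => ⟨s j, by have := hsJ j; omega⟩, ⟨J.card, by omega⟩)), ?_, fun j => rfl, rfl, hJne⟩
    rw [hG, mem_filter]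
    refine ⟨mem_univ _, Nat.mul_pos (by omega) hJne, hA, ?_⟩
    apply hmono _ _ _ _ _ (Nat.le_add_right C0 (2 * M))
    have h5 : (fun i : Fin D → Fin (k + 1) => f (fun j => (a j : ℕ) + (b + 1) * s j + (b + 1) * J.card * (i j : ℕ))) =
        fun i => f (fun j => (a j : ℕ) + (b + 1) * ∑ l, (L i l j : ℕ)) := by
      funext i
      congr 1
      funext j
      rw [hsum i j]
      ring
    have h6 : Γ.G C0 x (Fin D → Fin (k + 1)) univ (fun i => f (fun j => (a j : ℕ) + (b + 1) * s j + (b + 1) * J.card * (i j : ℕ))) := by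
      rw [h5]
      exact hL
    exact h6
  choose Y hYG hY1 hY2 hY3 using hex
  have hcount : (univ : Finset ((Fin D → Fin (N' + 1)) × Fin N')).card ≤
      (G ×ˢ (univ : Finset ((Fin D → Fin M) × Fin (n + 1)))).card := by
    apply card_le_card_of_injOn Y
    · intro z _
      exact mem_coe.2 (mem_product.2 ⟨hYG z, mem_univ _⟩)
    · intro z _ z' _ h
      have e1 := hY2 z
      have e2 := hY2 z'
      rw [h] at e1
      have e3 : ((z.2 : ℕ) + 1) * ((Y z').2.2 : ℕ) = (z'.2 + 1) * (Y z').2.2 := by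
        rw [← e1, e2]
      have e4 : (z.2 : ℕ) + 1 = z'.2 + 1 := Nat.eq_of_mul_eq_mul_right (hY3 z') e3
      have e5 : z.2 = z'.2 := Fin.ext (by omega)
      refine Prod.ext ?_ e5
      funext j
      have e6 := hY1 z j
      have e7 := hY1 z' j
      rw [h, e4] at e6
      exact Fin.ext (by omega)
  rw [card_product, card_univ, card_univ] at hcount
  have hc2 : (N' + 1) ^ D * N' ≤ G.card * (M ^ D * (n + 1)) := by simpa using hcount
  have hNr : (N : ℝ) / (2 * M) ≤ N' := by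
    have h1 : (N : ℝ) < M * (N' + 1) := by exact_mod_cast hN'1
    have h2 : (2 * M : ℝ) ≤ N := by exact_mod_cast (by omega : 2 * M ≤ N)
    rw [div_le_iff₀ (by positivity)]
    nlinarith
  have hNr0 : (0 : ℝ) ≤ (N : ℝ) / (2 * M) := by positivity
  have h3 : ((N : ℝ) / (2 * M)) ^ (D + 1) ≤ (N' + 1 : ℝ) ^ D * N' := by
    rw [pow_succ]
    apply mul_le_mul _ hNr hNr0 (by positivity)
    exact pow_le_pow_left₀ hNr0 (by linarith) D
  have h4 : ((N' + 1 : ℝ)) ^ D * N' ≤ G.card * (M ^ D * (n + 1)) := by exact_mod_cast hc2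
  have h5 : (0 : ℝ) < (M : ℝ) ^ D * (n + 1) := by positivity
  calc 1 / ((2 * (M : ℝ)) ^ (D + 1) * ((M : ℝ) ^ D * (n + 1))) * (N : ℝ) ^ (D + 1)
      = ((N : ℝ) / (2 * M)) ^ (D + 1) / ((M : ℝ) ^ D * (n + 1)) := by
        rw [div_pow]
        field_simp
    _ ≤ G.card := by
        rw [div_le_iff₀ h5]
        exact h3.trans h4

end Pool.Agent.Q118.HW
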